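import Pool.Agent.Helper23.MV.StP

/-! Project MV, module GWF: Gaussian windows through frequencies (Plancherel) -/

set_option autoImplicit false

namespace Pool.Agent.Helper87.MV

open Pool.Agent.Helper23.MV Finset ArithmeticFunction MeasureTheory
open Pool.Agent.Helper2.MR (ch)

section Plancherel

open FourierTransform

private theorem gwf_cont {f : ℝ → ℂ} (hf : Integrable f) : Continuous (𝓕 f) :=
  VectorFourier.fourierIntegral_continuous Real.continuous_fourierChar continuous_inner hf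

private theorem gwf_toLp {f : ℝ → ℂ} (h1 : Integrable f) (h2 : MemLp f 2) :
    ∀ᵐ x : ℝ, (𝓕 (h2.toLp f) : Lp ℂ 2 (volume : Measure ℝ)) x = 𝓕 f x := by
  set F : Lp ℂ 2 (volume : Measure ℝ) := h2.toLp f with hF
  apply ae_eq_of_integral_contDiff_smul_eq
  · exact ((Lp.memLp (𝓕 F)).locallyIntegrable (by norm_num))
  · exact (gwf_cont h1).locallyIntegrable
  · intro g hg hgs
    have hgs' : HasCompactSupport (fun x => (g x : ℂ)) :=
      hgs.comp_left (g := fun r : ℝ => (r : ℂ)) (by simp)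
    have hg' : ContDiff ℝ ((⊤ : ℕ∞) : WithTop ℕ∞) (fun x => (g x : ℂ)) :=
      Complex.ofRealCLM.contDiff.comp hg
    set G : SchwartzMap ℝ ℂ := hgs'.toSchwartzMap hg' with hG
    have hGg : ∀ x, G x = (g x : ℂ) := fun x => rfl
    have h3 : (𝓕 (F : TemperedDistribution ℝ ℂ)) G = ((𝓕 F : Lp ℂ 2 (volume : Measure ℝ)) :
        TemperedDistribution ℝ ℂ) G := by
      rw [MeasureTheory.Lp.fourier_toTemperedDistribution_eq]
    rw [TemperedDistribution.fourier_apply, Lp.toTemperedDistribution_apply,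
      Lp.toTemperedDistribution_apply] at h3
    have h4 : ∫ x, g x • (𝓕 F : Lp ℂ 2 (volume : Measure ℝ)) x =
        ∫ x, G x • (𝓕 F : Lp ℂ 2 (volume : Measure ℝ)) x := by
      apply integral_congr_ae (ae_of_all _ fun x => ?_)
      simp [hGg]
    have h5 : ∫ x, (𝓕 G) x • F x = ∫ x, (𝓕 (G : ℝ → ℂ)) x • f x := by
      apply integral_congr_ae
      filter_upwards [h2.coeFn_toLp] with x hx
      rw [hF, hx, SchwartzMap.fourier_coe]
    have h6 : ∫ x, (𝓕 (G : ℝ → ℂ)) x • f x = ∫ x, G x • 𝓕 f x := by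
      have := VectorFourier.integral_fourierIntegral_smul_eq_flip (L := innerₗ ℝ) (μ := volume)
        (ν := volume) Real.continuous_fourierChar continuous_inner G.integrable h1
      simpa using! this
    have h7 : ∫ x, G x • 𝓕 f x = ∫ x, g x • 𝓕 f x := by
      apply integral_congr_ae (ae_of_all _ fun x => ?_)
      simp [hGg]
    rw [h4, ← h3, h5, h6, h7]

private theorem gwf_planch {f : ℝ → ℂ} (hf1 : Integrable f) (hf2 : MemLp f 2) :
    MemLp (𝓕 f) 2 ∧ ∫ ξ, ‖𝓕 f ξ‖ ^ 2 = ∫ z, ‖f z‖ ^ 2 := by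
  set F : Lp ℂ 2 (volume : Measure ℝ) := hf2.toLp f with hF
  have h1 : ‖𝓕 F‖ = ‖F‖ := Lp.norm_fourier_eq F
  have hm : MemLp (𝓕 f) 2 := (memLp_congr_ae (gwf_toLp hf1 hf2)).1 (Lp.memLp (𝓕 F))
  refine ⟨hm, ?_⟩
  have h2 : ‖𝓕 F‖ₑ = ‖F‖ₑ := by rw [← ofReal_norm, ← ofReal_norm, h1]
  rw [Lp.enorm_def, Lp.enorm_def] at h2
  have h3 : eLpNorm (𝓕 F : Lp ℂ 2 (volume : Measure ℝ)) 2 volume = eLpNorm (𝓕 f) 2 volume :=
    eLpNorm_congr_ae (gwf_toLp hf1 hf2)
  have h4 : eLpNorm F 2 volume = eLpNorm f 2 volume :=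
    eLpNorm_congr_ae hf2.coeFn_toLp
  rw [h3, h4] at h2
  have key : ∀ g : ℝ → ℂ, MemLp g 2 → ∫ z, ‖g z‖ ^ 2 = ((eLpNorm g 2 volume) ^ 2).toReal := by
    intro g hg
    rw [eLpNorm_eq_lintegral_rpow_enorm_toReal (by norm_num) (by norm_num), ← ENNReal.rpow_natCast,
      ← ENNReal.rpow_mul]
    have hms : AEStronglyMeasurable (fun z => ‖g z‖ ^ 2) volume := hg.1.norm.pow 2
    rw [integral_eq_lintegral_of_nonneg_ae (f := fun z => ‖g z‖ ^ 2)
      (ae_of_all _ fun x => sq_nonneg _) hms]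
    congr 1
    norm_num
  rw [key _ hm, key _ hf2, h2]

/-- the scaled version -/
private theorem gwf_scaled {f : ℝ → ℂ} (hf1 : Integrable f) (hf2 : MemLp f 2) :
    Continuous (fun u : ℝ => ((√(2 * Real.pi))⁻¹ : ℂ) * ∫ t, Complex.exp (((t * u : ℝ) : ℂ) *
      Complex.I) * f t) ∧
    Integrable (fun u : ℝ => ‖((√(2 * Real.pi))⁻¹ : ℂ) * ∫ t, Complex.exp (((t * u : ℝ) : ℂ) *
      Complex.I) * f t‖ ^ 2) ∧
    ∫ u : ℝ, ‖((√(2 * Real.pi))⁻¹ : ℂ) * ∫ t, Complex.exp (((t * u : ℝ) : ℂ) *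
      Complex.I) * f t‖ ^ 2 = ∫ t, ‖f t‖ ^ 2 := by
  have hpi : 0 < 2 * Real.pi := by positivity
  have e : ∀ u : ℝ, ∫ t, Complex.exp (((t * u : ℝ) : ℂ) * Complex.I) * f t =
      𝓕 f (u * (-(2 * Real.pi)⁻¹)) := by
    intro u
    rw [Real.fourier_eq]
    apply integral_congr_ae (ae_of_all _ fun t => ?_)
    rw [Circle.smul_def, Real.fourierChar_apply, smul_eq_mul]
    congr 2
    have : (inner ℝ t (u * (-(2 * Real.pi)⁻¹)) : ℝ) = (u * (-(2 * Real.pi)⁻¹)) * t := rfl
    rw [this]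
    have h2 : 2 * Real.pi * -(u * (-(2 * Real.pi)⁻¹) * t) = t * u := by
      field_simp
    rw [h2]
  simp_rw [e]
  obtain ⟨hm, hpl⟩ := gwf_planch hf1 hf2
  have hc := gwf_cont hf1
  have hi : Integrable (fun ξ => ‖𝓕 f ξ‖ ^ 2) := (memLp_two_iff_integrable_sq_norm hm.1).1 hm
  have hne : (-(2 * Real.pi)⁻¹) ≠ 0 := by
    rw [neg_ne_zero]
    positivity
  have hnn : ∀ u : ℝ, ‖((√(2 * Real.pi))⁻¹ : ℂ) * 𝓕 f (u * (-(2 * Real.pi)⁻¹))‖ ^ 2 =
      (2 * Real.pi)⁻¹ * (fun ξ => ‖𝓕 f ξ‖ ^ 2) (u * (-(2 * Real.pi)⁻¹)) := by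
    intro u
    rw [norm_mul, mul_pow, norm_inv, Complex.norm_real, Real.norm_of_nonneg (Real.sqrt_nonneg _),
      inv_pow, Real.sq_sqrt hpi.le]
  refine ⟨?_, ?_, ?_⟩
  · exact continuous_const.mul (hc.comp (continuous_id.mul continuous_const))
  · simp_rw [hnn]
    exact (hi.comp_mul_right' hne).const_mul _
  · simp_rw [hnn]
    rw [integral_const_mul, Measure.integral_comp_mul_right (fun ξ => ‖𝓕 f ξ‖ ^ 2), ← hpl,
      smul_eq_mul, ← mul_assoc]
    rw [inv_neg, inv_inv, abs_neg, abs_of_pos hpi, inv_mul_cancel₀ hpi.ne', one_mul]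

end Plancherel

/-- the Gaussian integral -/
private theorem gwf_gauss (T : ℝ) (hT : 0 < T) (x : ℝ) :
    Integrable (fun t : ℝ => Complex.exp (-(((2 * T ^ 2)⁻¹ : ℝ) : ℂ) * (t : ℂ) ^ 2 +
      ((x : ℂ) * Complex.I) * t + 0)) ∧
    ∫ t : ℝ, Complex.exp (-(((2 * T ^ 2)⁻¹ : ℝ) : ℂ) * (t : ℂ) ^ 2 +
      ((x : ℂ) * Complex.I) * t + 0) =
      ((√(2 * Real.pi) * (T * Real.exp (-(T ^ 2 * x ^ 2 / 2))) : ℝ) : ℂ) := by
  have hT2 : 0 < (2 * T ^ 2)⁻¹ := by positivity
  refine ⟨integrable_cexp_quadratic (by rw [Complex.ofReal_re]; exact hT2) _ _, ?_⟩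
  rw [integral_cexp_quadratic (b := -(((2 * T ^ 2)⁻¹ : ℝ) : ℂ)) (by
    rw [Complex.neg_re, Complex.ofReal_re]; linarith)]
  have hsq : ((Real.pi / (2 * T ^ 2)⁻¹ : ℝ) : ℂ) ^ ((1 : ℂ) / 2) =
      ((√(Real.pi / (2 * T ^ 2)⁻¹) : ℝ) : ℂ) := by
    rw [Real.sqrt_eq_rpow, Complex.ofReal_cpow (by positivity)]
    norm_num
  rw [neg_neg, ← Complex.ofReal_div, hsq]
  have h1 : √(Real.pi / (2 * T ^ 2)⁻¹) = √(2 * Real.pi) * T := by
    rw [div_inv_eq_mul, show Real.pi * (2 * T ^ 2) = (2 * Real.pi) * T ^ 2 by ring,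
      Real.sqrt_mul (by positivity), Real.sqrt_sq hT.le]
  rw [h1, ← mul_assoc, Complex.ofReal_mul (√(2 * Real.pi) * T), Complex.ofReal_exp]
  congr 2
  have hTc : (T : ℂ) ≠ 0 := by exact_mod_cast hT.ne'
  push_cast
  rw [mul_pow, Complex.I_sq]
  field_simp
  ring

private theorem ch_cont (m : ℕ) : Continuous (fun t : ℝ => ch t m) := by
  unfold ch
  fun_prop

private theorem ch_norm (t : ℝ) (m : ℕ) : ‖ch t m‖ = 1 := by
  unfold ch
  rw [Complex.norm_exp_ofReal_mul_I]

theorem hGwf : StGwf := by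
  intro o c w X T S hX hT hS
  set G : ℝ → ℂ := fun t => GO o c w X t with hG
  have hGc : Continuous G := by
    rw [hG]
    unfold GO
    exact continuous_finsetSum _ fun m _ => continuous_const.mul (ch_cont m)
  set B : ℝ := ∑ m ∈ Icc 1 (3 * X), ‖gm o c w X m / m‖ with hB
  have hGb : ∀ t, ‖G t‖ ≤ B := by
    intro t
    rw [hG]
    unfold GO
    refine (norm_sum_le _ _).trans ?_
    refine Finset.sum_le_sum fun m _ => ?_
    rw [norm_mul, ch_norm, mul_one]
  have hB0 : 0 ≤ B := Finset.sum_nonneg fun m _ => norm_nonneg _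
  set k : ℝ → ℝ := fun t => Real.exp (-(t ^ 2 / (2 * T ^ 2))) with hk
  have hkc : Continuous k := by
    rw [hk]
    fun_prop
  have hk0 : ∀ t, 0 < k t := fun t => Real.exp_pos _
  have hk1 : ∀ t, k t ≤ 1 := fun t => Real.exp_le_one_iff.2 (by
    have : 0 ≤ t ^ 2 / (2 * T ^ 2) := by positivity
    linarith)
  have hki : Integrable k := by
    have h := integrable_exp_neg_mul_sq (b := (2 * T ^ 2)⁻¹) (by positivity)
    refine h.congr (ae_of_all _ fun t => ?_)
    simp only [hk]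
    congr 1
    field_simp
  have hk2i : ∀ t, k t ^ 2 = Real.exp (-(t ^ 2 / T ^ 2)) := by
    intro t
    simp only [hk]
    rw [← Real.exp_nat_mul]
    congr 1
    push_cast
    field_simp
  -- the whole function
  set F : ℝ → ℂ := fun t => (k t : ℂ) * G t with hF
  have hFc : Continuous F := (Complex.continuous_ofReal.comp hkc).mul hGc
  have hFn : ∀ t, ‖F t‖ = k t * ‖G t‖ := by
    intro t
    simp only [hF]
    rw [norm_mul, Complex.norm_real, Real.norm_of_nonneg (hk0 t).le]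
  have hFi : Integrable F := by
    refine (hki.const_mul B).mono' hFc.aestronglyMeasurable (ae_of_all _ fun t => ?_)
    rw [hFn, mul_comm]
    exact mul_le_mul_of_nonneg_right (hGb t) (hk0 t).le
  have hF2 : MemLp F 2 := by
    rw [memLp_two_iff_integrable_sq_norm hFc.aestronglyMeasurable]
    refine (hki.const_mul (B ^ 2)).mono' (hFc.norm.pow 2).aestronglyMeasurable
      (ae_of_all _ fun t => ?_)
    rw [Real.norm_of_nonneg (sq_nonneg _), hFn, mul_pow, mul_comm]
    refine mul_le_mul ?_ ?_ (sq_nonneg _) (sq_nonneg _)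
    · exact pow_le_pow_left₀ (norm_nonneg _) (hGb t) 2
    · have := hk1 t
      have h0 := hk0 t
      nlinarith
  -- the part over `S`
  have h1 : Integrable (S.indicator F) := hFi.indicator hS
  have h2 : MemLp (S.indicator F) 2 := hF2.indicator hS
  obtain ⟨hc1, hi1, hp1⟩ := gwf_scaled h1 h2
  refine ⟨_, hc1, ?_, hi1, ?_⟩
  · intro u
    -- `Wg` as an integral
    have hE : ∀ t : ℝ, ‖Complex.exp (((t * u : ℝ) : ℂ) * Complex.I)‖ = 1 := fun t =>
      Complex.norm_exp_ofReal_mul_I _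
    have hEc : Continuous (fun t : ℝ => Complex.exp (((t * u : ℝ) : ℂ) * Complex.I)) := by
      fun_prop
    have hW : Wg o c w X T u = ((√(2 * Real.pi))⁻¹ : ℂ) *
        ∫ t, Complex.exp (((t * u : ℝ) : ℂ) * Complex.I) * F t := by
      have hexp : ∀ t : ℝ, Complex.exp (((t * u : ℝ) : ℂ) * Complex.I) * F t =
          ∑ m ∈ Icc 1 (3 * X), gm o c w X m / m *
            Complex.exp (-(((2 * T ^ 2)⁻¹ : ℝ) : ℂ) * (t : ℂ) ^ 2 +
              (((u - Real.log m : ℝ) : ℂ) * Complex.I) * t + 0) := by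
        intro t
        simp only [hF, hG]
        unfold GO
        rw [Finset.mul_sum, Finset.mul_sum]
        refine Finset.sum_congr rfl fun m _ => ?_
        have h3 : Complex.exp (-(((2 * T ^ 2)⁻¹ : ℝ) : ℂ) * (t : ℂ) ^ 2 +
              (((u - Real.log m : ℝ) : ℂ) * Complex.I) * t + 0) =
            Complex.exp (((t * u : ℝ) : ℂ) * Complex.I) * ((k t : ℂ) * ch t m) := by
          simp only [hk]
          unfold ch
          rw [Complex.ofReal_exp, ← Complex.exp_add, ← Complex.exp_add]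
          congr 1
          push_cast
          field_simp
          ring
        rw [h3]
        ring
      simp_rw [hexp]
      rw [integral_finsetSum _ fun m _ => ((gwf_gauss T hT _).1.const_mul _)]
      rw [Finset.mul_sum]
      unfold Wg
      refine Finset.sum_congr rfl fun m _ => ?_
      rw [integral_const_mul, (gwf_gauss T hT _).2]
      have hs : ((√(2 * Real.pi) : ℝ) : ℂ) ≠ 0 := by
        have : 0 < √(2 * Real.pi) := Real.sqrt_pos.2 (by positivity)
        exact_mod_cast this.ne'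
      push_cast
      field_simp
    have hsplit : ∫ t, Complex.exp (((t * u : ℝ) : ℂ) * Complex.I) * F t =
        (∫ t, Complex.exp (((t * u : ℝ) : ℂ) * Complex.I) * S.indicator F t) +
        ∫ t in Sᶜ, Complex.exp (((t * u : ℝ) : ℂ) * Complex.I) * F t := by
      have hint : Integrable (fun t => Complex.exp (((t * u : ℝ) : ℂ) * Complex.I) * F t) :=
        hFi.bdd_mul (c := 1) hEc.aestronglyMeasurable (ae_of_all _ fun t => (hE t).le)
      rw [← integral_add_compl hS hint]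
      congr 1
      rw [← integral_indicator hS]
      apply integral_congr_ae (ae_of_all _ fun t => ?_)
      by_cases ht : t ∈ S
      · simp [Set.indicator_of_mem ht]
      · simp [Set.indicator_of_notMem ht]
    rw [hW, hsplit, mul_add, add_sub_cancel_left, norm_mul]
    have hs1 : ‖((√(2 * Real.pi))⁻¹ : ℂ)‖ ≤ 1 := by
      rw [norm_inv, Complex.norm_real, Real.norm_of_nonneg (Real.sqrt_nonneg _)]
      apply inv_le_one_of_one_le₀
      rw [Real.one_le_sqrt]
      linarith [Real.pi_gt_three]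
    calc _ ≤ 1 * ‖∫ t in Sᶜ, Complex.exp (((t * u : ℝ) : ℂ) * Complex.I) * F t‖ :=
          mul_le_mul_of_nonneg_right hs1 (norm_nonneg _)
      _ ≤ ∫ t in Sᶜ, ‖Complex.exp (((t * u : ℝ) : ℂ) * Complex.I) * F t‖ := by
          rw [one_mul]
          exact norm_integral_le_integral_norm _
      _ = _ := by
          apply integral_congr_ae (ae_of_all _ fun t => ?_)
          change ‖Complex.exp (((t * u : ℝ) : ℂ) * Complex.I) * F t‖ = k t * ‖G t‖
          rw [norm_mul, hE, one_mul, hFn]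
  · rw [hp1]
    apply le_of_eq
    rw [← integral_indicator hS]
    apply integral_congr_ae (ae_of_all _ fun t => ?_)
    by_cases ht : t ∈ S
    · simp only [Set.indicator_of_mem ht]
      rw [hFn, mul_pow, hk2i]
    · simp [Set.indicator_of_notMem ht]

end Pool.Agent.Helper87.MV
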