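import Pool.Agent.Helper23.MV.StL

/-! Project MV, module MUH: the sums of `μ(m)/m log(y/m)` are bounded -/

set_option autoImplicit false

namespace Pool.Agent.Helper87.MV

open Pool.Agent.Helper23.MV Finset ArithmeticFunction

/-- `μ(n)/n` -/
private noncomputable def fM : ArithmeticFunction ℝ :=
  ⟨fun n => (moebius n : ℝ) / n, by simp⟩

/-- `1/n` -/
private noncomputable def gM : ArithmeticFunction ℝ :=
  ⟨fun n => 1 / (n : ℝ), by simp⟩

private theorem fM_apply (n : ℕ) : fM n = (moebius n : ℝ) / n := rfl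

private theorem gM_apply (n : ℕ) : gM n = 1 / (n : ℝ) := rfl

private theorem mu_zeta (n : ℕ) :
    ∑ d ∈ n.divisors, (moebius d : ℝ) = if n = 1 then 1 else 0 := by
  have h := congrArg (fun F : ArithmeticFunction ℤ => F n) moebius_mul_coe_zeta
  simp only [coe_mul_zeta_apply, one_apply] at h
  have h2 := congrArg (fun z : ℤ => (z : ℝ)) h
  push_cast at h2
  exact h2

private theorem fg (n : ℕ) (hn : n ≠ 0) : (fM * gM) n = if n = 1 then 1 else 0 := by
  rw [mul_apply]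
  have h1 : ∀ x ∈ n.divisorsAntidiagonal, fM x.1 * gM x.2 = (moebius x.1 : ℝ) * (1 / n) := by
    intro x hx
    have h := (Nat.mem_divisorsAntidiagonal.1 hx).1
    have hx1 : x.1 ≠ 0 := by rintro h0; rw [h0, zero_mul] at h; exact hn h.symm
    have hx2 : x.2 ≠ 0 := by rintro h0; rw [h0, mul_zero] at h; exact hn h.symm
    rw [fM_apply, gM_apply, ← h]
    push_cast
    field_simp
  rw [sum_congr rfl h1, ← sum_mul,
    Nat.sum_divisorsAntidiagonal (fun d _ => (moebius d : ℝ)), mu_zeta]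
  split_ifs with h
  · subst h; norm_num
  · rw [zero_mul]

private theorem sum_one (N : ℕ) (hN : 1 ≤ N) :
    ∑ n ∈ Ioc 0 N, fM n * ∑ m ∈ Ioc 0 (N / n), gM m = 1 := by
  rw [← sum_Ioc_mul_eq_sum_sum]
  rw [sum_congr rfl (fun n hn => fg n (by have := (mem_Ioc.1 hn).1; omega))]
  rw [sum_ite_eq' (Ioc 0 N) 1 (fun _ => (1 : ℝ)), if_pos (mem_Ioc.2 ⟨by norm_num, hN⟩)]

private theorem sum_g (n : ℕ) : ∑ m ∈ Ioc 0 n, gM m = (harmonic n : ℝ) := by
  rw [harmonic_eq_sum_Icc]
  push_cast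
  refine sum_congr (by ext x; simp only [mem_Ioc, mem_Icc]; omega) (fun m _ => ?_)
  rw [gM_apply, one_div]

private theorem harm (v : ℝ) (hv : 1 ≤ v) :
    |(harmonic ⌊v⌋₊ : ℝ) - Real.log v - Real.eulerMascheroniConstant| ≤ 2 / v := by
  set n := ⌊v⌋₊ with hn
  have hn1 : 1 ≤ n := Nat.one_le_iff_ne_zero.2 (Nat.floor_pos.2 hv).ne'
  have hn1' : (1 : ℝ) ≤ n := by exact_mod_cast hn1
  have h1 : (n : ℝ) ≤ v := Nat.floor_le (by linarith)
  have h2 : v < n + 1 := Nat.lt_floor_add_one v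
  have hU : (harmonic n : ℝ) - Real.log (n + 1) < Real.eulerMascheroniConstant := by
    have := Real.eulerMascheroniSeq_lt_eulerMascheroniConstant n
    simpa [Real.eulerMascheroniSeq] using this
  have hL : Real.eulerMascheroniConstant < (harmonic n : ℝ) - Real.log n := by
    have := Real.eulerMascheroniConstant_lt_eulerMascheroniSeq' n
    rw [Real.eulerMascheroniSeq', if_neg (by omega)] at this
    exact this
  have hlog : Real.log (n + 1) - Real.log n ≤ 1 / n := by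
    rw [← Real.log_div (by positivity) (by positivity)]
    have := Real.log_le_sub_one_of_pos (x := ((n : ℝ) + 1) / n) (by positivity)
    have h3 : ((n : ℝ) + 1) / n - 1 = 1 / n := by field_simp; ring
    linarith
  have hv2 : 1 / (n : ℝ) ≤ 2 / v := by
    rw [div_le_div_iff₀ (by positivity) (by linarith)]
    linarith
  have h4 : Real.log n ≤ Real.log v := Real.log_le_log (by positivity) h1
  have h5 : Real.log v ≤ Real.log (n + 1) := Real.log_le_log (by linarith) h2.le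
  rw [abs_le]
  constructor <;> linarith

private theorem mu_abs (m : ℕ) : |(moebius m : ℝ)| ≤ 1 := by
  have h := abs_moebius_le_one (n := m)
  exact_mod_cast h

private theorem mu_floor (N : ℕ) (hN : 1 ≤ N) :
    ∑ n ∈ Ioc 0 N, (moebius n : ℝ) * ((N / n : ℕ) : ℝ) = 1 := by
  have h := sum_Ioc_mul_zeta_eq_sum (R := ℤ) moebius N
  have h1 : ∑ n ∈ Ioc 0 N, (moebius * (zeta : ArithmeticFunction ℤ)) n = 1 := by
    rw [moebius_mul_coe_zeta]
    simp only [one_apply]
    rw [sum_ite_eq' (Ioc 0 N) 1 (fun _ => (1 : ℤ)), if_pos (mem_Ioc.2 ⟨by norm_num, hN⟩)]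
  rw [h1] at h
  have h2 := congrArg (fun z : ℤ => (z : ℝ)) h
  push_cast at h2
  exact h2.symm

private theorem mu_sum (N : ℕ) (hN : 1 ≤ N) : |∑ n ∈ Ioc 0 N, (moebius n : ℝ) / n| ≤ 2 := by
  have hN' : (0 : ℝ) < N := by exact_mod_cast hN
  have h1 : (N : ℝ) * ∑ n ∈ Ioc 0 N, (moebius n : ℝ) / n - 1
      = ∑ n ∈ Ioc 0 N, (moebius n : ℝ) * ((N : ℝ) / n - ((N / n : ℕ) : ℝ)) := by
    rw [← mu_floor N hN, mul_sum, ← sum_sub_distrib]
    refine sum_congr rfl (fun n _ => ?_)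
    ring
  have h2 : |(N : ℝ) * ∑ n ∈ Ioc 0 N, (moebius n : ℝ) / n - 1| ≤ N := by
    rw [h1]
    refine (abs_sum_le_sum_abs _ _).trans ?_
    have h3 : ∀ n ∈ Ioc 0 N, |(moebius n : ℝ) * ((N : ℝ) / n - ((N / n : ℕ) : ℝ))| ≤ 1 := by
      intro n hn
      have hn0 : (0 : ℝ) < n := by exact_mod_cast (mem_Ioc.1 hn).1
      rw [abs_mul]
      have h4 : |(N : ℝ) / n - ((N / n : ℕ) : ℝ)| ≤ 1 := by
        have h5 : ((N / n : ℕ) : ℝ) ≤ (N : ℝ) / n := Nat.cast_div_le
        have h6 : (N : ℝ) / n < ((N / n : ℕ) : ℝ) + 1 := by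
          rw [div_lt_iff₀ hn0]
          have := Nat.lt_mul_div_succ N (mem_Ioc.1 hn).1
          have h7 : (N : ℝ) < (n : ℝ) * (((N / n : ℕ) : ℝ) + 1) := by exact_mod_cast this
          linarith
        rw [abs_le]; constructor <;> linarith
      exact mul_le_one₀ (mu_abs n) (abs_nonneg _) h4
    refine (sum_le_sum h3).trans ?_
    simp
  have h3 : |(N : ℝ) * ∑ n ∈ Ioc 0 N, (moebius n : ℝ) / n| ≤ 2 * N := by
    have h4 : (1 : ℝ) ≤ N := by exact_mod_cast hN
    rw [abs_le] at h2 ⊢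
    constructor <;> linarith
  rw [abs_mul, abs_of_pos hN'] at h3
  nlinarith

/-- MUH -/
theorem hMuh : StMuh := by
  refine ⟨5, by norm_num, fun y hy => ?_⟩
  set N := ⌊y⌋₊ with hN
  have hN1 : 1 ≤ N := Nat.one_le_iff_ne_zero.2 (Nat.floor_pos.2 hy).ne'
  have hNy : (N : ℝ) ≤ y := Nat.floor_le (by linarith)
  have hI : Icc 1 N = Ioc 0 N := by ext x; simp only [mem_Ioc, mem_Icc]; omega
  rw [hI]
  set γ := Real.eulerMascheroniConstant with hγ
  have hE : ∀ n ∈ Ioc 0 N, (harmonic (N / n) : ℝ) = Real.log (y / n) + γ +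
      ((harmonic (N / n) : ℝ) - Real.log (y / n) - γ) := fun n _ => by ring
  have hE2 : ∀ n ∈ Ioc 0 N, |(harmonic (N / n) : ℝ) - Real.log (y / n) - γ| ≤ 2 / (y / n) := by
    intro n hn
    have hn0 : (0 : ℝ) < n := by exact_mod_cast (mem_Ioc.1 hn).1
    have hnN : (n : ℝ) ≤ N := by exact_mod_cast (mem_Ioc.1 hn).2
    have h := harm (y / n) (by rw [le_div_iff₀ hn0]; linarith)
    rwa [Nat.floor_div_natCast] at h
  have h1 := sum_one N hN1
  have h2 : ∑ n ∈ Ioc 0 N, fM n * ∑ m ∈ Ioc 0 (N / n), gM m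
      = ∑ n ∈ Ioc 0 N, (moebius n : ℝ) / n * Real.log (y / n) +
        γ * ∑ n ∈ Ioc 0 N, (moebius n : ℝ) / n +
        ∑ n ∈ Ioc 0 N, (moebius n : ℝ) / n * ((harmonic (N / n) : ℝ) - Real.log (y / n) - γ) := by
    rw [mul_sum, ← sum_add_distrib, ← sum_add_distrib]
    refine sum_congr rfl (fun n _ => ?_)
    rw [sum_g, fM_apply]
    ring
  have h3 : |∑ n ∈ Ioc 0 N, (moebius n : ℝ) / n * ((harmonic (N / n) : ℝ) - Real.log (y / n) - γ)|
      ≤ 2 := by
    refine (abs_sum_le_sum_abs _ _).trans ?_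
    have h4 : ∀ n ∈ Ioc 0 N,
        |(moebius n : ℝ) / n * ((harmonic (N / n) : ℝ) - Real.log (y / n) - γ)| ≤ 2 / y := by
      intro n hn
      have hn0 : (0 : ℝ) < n := by exact_mod_cast (mem_Ioc.1 hn).1
      rw [abs_mul, abs_div, abs_of_pos hn0]
      calc |(moebius n : ℝ)| / n * |(harmonic (N / n) : ℝ) - Real.log (y / n) - γ|
          ≤ 1 / n * (2 / (y / n)) := by
            refine mul_le_mul ?_ (hE2 n hn) (abs_nonneg _) (by positivity)
            exact div_le_div_of_nonneg_right (mu_abs n) hn0.le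
        _ = 2 / y := by field_simp
    refine (sum_le_sum h4).trans ?_
    rw [sum_const, Nat.card_Ioc, nsmul_eq_mul, Nat.sub_zero]
    rw [mul_div_assoc', div_le_iff₀ (by linarith)]
    linarith
  have h5 := mu_sum N hN1
  have h6 : γ < 2 / 3 := Real.eulerMascheroniConstant_lt_two_thirds
  have h7 : 1 / 2 < γ := Real.one_half_lt_eulerMascheroniConstant
  have h8 : |γ * ∑ n ∈ Ioc 0 N, (moebius n : ℝ) / n| ≤ 2 / 3 * 2 := by
    rw [abs_mul, abs_of_pos (by linarith)]
    exact mul_le_mul h6.le h5 (abs_nonneg _) (by norm_num)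
  rw [h1] at h2
  rw [abs_le] at h3 h8 ⊢
  constructor <;> linarith

end Pool.Agent.Helper87.MV
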